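import Pool.Agent.Helper93.KS.St

/-!
# Project KS, module CS1: complete sums modulo a prime by Kloosterman sums
-/

set_option autoImplicit false

namespace Pool.Agent.Helper92.KS

open Finset Filter Topology Pool.Agent.Helper93.KS
open Pool.Agent.Helper15.AB (ee Kl StDB StMT)
open Pool.Agent.Helper93.KP (gk vk tk rn gn TK qk StC8P StVLP StRTS StWEI)

/-- `e(k/p)` as an additive character. -/
private theorem ee_eq (p : ℕ) [NeZero p] (k : ℤ) :
    ee ((k : ℝ) / (p : ℝ)) = ZMod.stdAddChar ((k : ℤ) : ZMod p) := by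
  rw [ZMod.stdAddChar_coe]
  unfold ee
  congr 1
  push_cast
  ring

private theorem sum_rg {p : ℕ} [NeZero p] (f : ZMod p → ℂ) :
    ∑ n ∈ range p, f (n : ZMod p) = ∑ x : ZMod p, f x := by
  refine Finset.sum_nbij' (fun n => (n : ZMod p)) ZMod.val ?_ ?_ ?_ ?_ ?_
  · intro a _
    exact mem_univ _
  · intro x _
    exact mem_range.2 (ZMod.val_lt x)
  · intro a ha
    exact ZMod.val_cast_of_lt (mem_range.1 ha)
  · intro x _
    exact ZMod.natCast_zmod_val x
  · intro a _
    rfl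

private def RR (p : ℕ) [NeZero p] (x : ZMod p) : ℕ :=
  (univ.filter (fun k : ZMod p => k * x - k ^ 2 - 1 = 0)).card

private theorem rn_eq {p : ℕ} [hF : Fact p.Prime] (h30 : (30 : ZMod p) ≠ 0) (n : ℕ) :
    rn n p = RR p (n : ZMod p) := by
  have key : ∀ k : ℕ, (p : ℤ) ∣ gk n k ↔ (k : ZMod p) * (n : ZMod p) - (k : ZMod p) ^ 2 - 1 = 0 := by
    intro k
    rw [← ZMod.intCast_zmod_eq_zero_iff_dvd]
    unfold gk
    push_cast
    rfl
  unfold rn RR
  refine Finset.card_nbij' (fun r => ((30 * r : ℕ) : ZMod p))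
    (fun k => ((30 : ZMod p)⁻¹ * k).val) ?_ ?_ ?_ ?_
  · intro r hr
    rw [mem_coe, mem_filter] at hr ⊢
    exact ⟨mem_univ _, (key (30 * r)).1 hr.2⟩
  · intro k hk
    rw [mem_coe, mem_filter] at hk ⊢
    refine ⟨mem_range.2 (ZMod.val_lt _), (key _).2 ?_⟩
    have e : ((30 * ((30 : ZMod p)⁻¹ * k).val : ℕ) : ZMod p) = k := by
      push_cast
      rw [ZMod.natCast_zmod_val, mul_inv_cancel_left₀ h30]
    rw [e]
    exact hk.2
  · intro r hr
    rw [mem_coe, mem_filter, mem_range] at hr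
    have e : (30 : ZMod p)⁻¹ * ((30 * r : ℕ) : ZMod p) = (r : ZMod p) := by
      push_cast
      rw [inv_mul_cancel_left₀ h30]
    simp only
    rw [e]
    exact ZMod.val_cast_of_lt hr.1
  · intro k _
    simp only
    push_cast
    rw [ZMod.natCast_zmod_val, mul_inv_cancel_left₀ h30]

/-- `∑ R(x) ψ(h x)` as a Kloosterman sum. -/
private theorem sum_RR {p : ℕ} [hF : Fact p.Prime] (ψ : AddChar (ZMod p) ℂ) (h : ZMod p) :
    ∑ x : ZMod p, (RR p x : ℂ) * ψ (h * x) =
      ∑ k ∈ univ.filter (fun k : ZMod p => k ≠ 0), ψ (h * k + h * k⁻¹) := by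
  have e1 : ∀ x : ZMod p, (RR p x : ℂ) * ψ (h * x) =
      ∑ k : ZMod p, if k * x - k ^ 2 - 1 = 0 then ψ (h * x) else 0 := by
    intro x
    rw [← Finset.sum_filter, Finset.sum_const, nsmul_eq_mul]
    rfl
  rw [Finset.sum_congr rfl fun x _ => e1 x, Finset.sum_comm, Finset.sum_filter]
  refine Finset.sum_congr rfl fun k _ => ?_
  by_cases hk : k = 0
  · subst hk
    simp
  · rw [if_pos hk]
    have e2 : ∀ x : ZMod p, k * x - k ^ 2 - 1 = 0 ↔ x = k + k⁻¹ := by
      intro x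
      constructor
      · intro hx
        have : x = k⁻¹ * (k * x - k ^ 2 - 1) + (k + k⁻¹) := by
          field_simp
          ring
        rw [this, hx, mul_zero, zero_add]
      · rintro rfl
        field_simp
        ring
    have e3 : ∀ x : ZMod p, (if k * x - k ^ 2 - 1 = 0 then ψ (h * x) else 0) =
        if x = k + k⁻¹ then ψ (h * x) else 0 := by
      intro x
      by_cases hx : x = k + k⁻¹
      · rw [if_pos hx, if_pos ((e2 x).2 hx)]
      · rw [if_neg hx, if_neg (fun h0 => hx ((e2 x).1 h0))]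
    rw [Finset.sum_congr rfl fun x _ => e3 x, Finset.sum_ite_eq' univ (k + k⁻¹) (fun x => ψ (h * x)),
      if_pos (mem_univ _), mul_add]

private theorem Kl_eq {p : ℕ} [hF : Fact p.Prime] (h : ℤ) :
    Kl p h h = ∑ k ∈ univ.filter (fun k : ZMod p => k ≠ 0),
      (ZMod.stdAddChar ((h : ZMod p) * k + (h : ZMod p) * k⁻¹) : ℂ) := by
  unfold Kl
  have e0 : ∀ u : ℕ, Nat.Coprime u p ↔ (u : ZMod p) ≠ 0 := by
    intro u
    rw [Nat.coprime_comm, hF.out.coprime_iff_not_dvd, Ne, ZMod.natCast_eq_zero_iff]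
  have e1 : ∀ u : ℕ, ee (((h * u + h * (((u : ZMod p)⁻¹).val : ℤ) : ℤ) : ℝ) / (p : ℝ)) =
      ZMod.stdAddChar ((h : ZMod p) * (u : ZMod p) + (h : ZMod p) * (u : ZMod p)⁻¹) := by
    intro u
    rw [ee_eq]
    congr 1
    push_cast
    rw [ZMod.natCast_zmod_val]
  rw [Finset.sum_filter, Finset.sum_filter, ← sum_rg (fun k : ZMod p => if k ≠ 0 then
    (ZMod.stdAddChar ((h : ZMod p) * k + (h : ZMod p) * k⁻¹) : ℂ) else 0)]
  refine Finset.sum_congr rfl fun u _ => ?_
  by_cases hu : Nat.Coprime u p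
  · rw [if_pos hu, if_pos ((e0 u).1 hu), e1]
  · rw [if_neg hu, if_neg (fun h0 => hu ((e0 u).2 h0))]

/-- Module CS1. -/
theorem hCS1 (hW : StWEI) : StCS1 := by
  intro p h hp hp7
  have hF : Fact p.Prime := ⟨hp⟩
  have hp0 : (0 : ℝ) < p := by exact_mod_cast hp.pos
  have h30 : (30 : ZMod p) ≠ 0 := by
    intro h0
    have h1 : ((30 : ℕ) : ZMod p) = 0 := by exact_mod_cast h0
    rw [ZMod.natCast_eq_zero_iff] at h1
    have h2 : p ∣ 2 * (3 * 5) := by simpa using h1
    rcases (Nat.Prime.dvd_mul hp).1 h2 with h3 | h3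
    · have := Nat.le_of_dvd (by norm_num) h3
      omega
    · rcases (Nat.Prime.dvd_mul hp).1 h3 with h4 | h4
      · have := Nat.le_of_dvd (by norm_num) h4
        omega
      · have := Nat.le_of_dvd (by norm_num) h4
        omega
  have h2ne : (2 : ZMod p) ≠ 0 := by
    intro h0
    have h1 : ((2 : ℕ) : ZMod p) = 0 := by exact_mod_cast h0
    rw [ZMod.natCast_eq_zero_iff] at h1
    have := Nat.le_of_dvd (by norm_num) h1
    omega
  set ψ : AddChar (ZMod p) ℂ := ZMod.stdAddChar with hψ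
  have hprim : ψ.IsPrimitive := ZMod.isPrimitive_stdAddChar p
  have hsq : √(p : ℝ) ≥ 2 := by
    have : (7 : ℝ) ≤ p := by exact_mod_cast hp7
    exact (Real.le_sqrt' (by norm_num)).2 (by linarith)
  -- the correction at the classes `n ≡ ± 2`
  set dd : ZMod p → ℂ := fun x => if x ^ 2 - 4 = 0 then (2 : ℂ) - (RR p x : ℂ) else 0 with hdd
  have hsx : ∀ n : ℕ, (sx n p : ℂ) = (RR p (n : ZMod p) : ℂ) - 1 + dd (n : ZMod p) := by
    intro n
    have e1 : (p : ℤ) ∣ (n : ℤ) ^ 2 - 4 ↔ (n : ZMod p) ^ 2 - 4 = 0 := by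
      rw [← ZMod.intCast_zmod_eq_zero_iff_dvd]
      push_cast
      rfl
    unfold sx
    by_cases hn : (n : ZMod p) ^ 2 - 4 = 0
    · rw [if_pos (e1.2 hn), hdd]
      simp only
      rw [if_pos hn]
      push_cast
      ring
    · rw [if_neg (fun h0 => hn (e1.1 h0)), rn_eq h30 n, hdd]
      simp only
      rw [if_neg hn]
      push_cast
      ring
  have hterm : ∀ n : ℕ, (sx n p : ℂ) * ee ((h : ℝ) * n / p) =
      ((RR p (n : ZMod p) : ℂ) - 1 + dd (n : ZMod p)) * ψ ((h : ZMod p) * (n : ZMod p)) := by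
    intro n
    rw [hsx n]
    congr 1
    have e2 := ee_eq p (h * n)
    push_cast at e2
    rw [e2]
  rw [Finset.sum_congr rfl fun n _ => hterm n,
    sum_rg (fun x : ZMod p => ((RR p x : ℂ) - 1 + dd x) * ψ ((h : ZMod p) * x))]
  have hsplit : ∑ x : ZMod p, ((RR p x : ℂ) - 1 + dd x) * ψ ((h : ZMod p) * x) =
      (Kl p h h - ∑ x : ZMod p, ψ ((h : ZMod p) * x)) + ∑ x : ZMod p, dd x * ψ ((h : ZMod p) * x) := by
    rw [Kl_eq, ← sum_RR ψ (h : ZMod p), ← Finset.sum_sub_distrib, ← Finset.sum_add_distrib]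
    exact Finset.sum_congr rfl fun x _ => by ring
  rw [hsplit]
  -- the number of roots
  have hR : ∀ x : ZMod p, x ^ 2 - 4 = 0 → RR p x ≤ 1 := by
    intro x hx
    unfold RR
    rw [Finset.card_le_one]
    intro a ha b hb
    rw [mem_filter] at ha hb
    have q : ∀ k : ZMod p, k * x - k ^ 2 - 1 = 0 → 2 * k = x := by
      intro k hk
      have h1 : (2 * k - x) ^ 2 = 0 := by
        have : (2 * k - x) ^ 2 = -4 * (k * x - k ^ 2 - 1) + (x ^ 2 - 4) := by ring
        rw [this, hk, hx]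
        ring
      exact sub_eq_zero.1 (pow_eq_zero_iff (two_ne_zero) |>.1 h1)
    have h1 : 2 * a = 2 * b := (q a ha.2).trans (q b hb.2).symm
    exact mul_left_cancel₀ h2ne h1
  have hdn : ∀ x : ZMod p, ‖dd x‖ ≤ if x ^ 2 - 4 = 0 then 2 else 0 := by
    intro x
    rw [hdd]
    simp only
    by_cases hx : x ^ 2 - 4 = 0
    · rw [if_pos hx, if_pos hx]
      have h1 := hR x hx
      interval_cases (RR p x)
      · norm_num
      · norm_num
    · rw [if_neg hx, if_neg hx, norm_zero]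
  have hpsi : ∀ x : ZMod p, ‖ψ x‖ = 1 := fun x => AddChar.norm_apply ψ x
  have hD : ‖∑ x : ZMod p, dd x * ψ ((h : ZMod p) * x)‖ ≤ 4 := by
    calc ‖∑ x : ZMod p, dd x * ψ ((h : ZMod p) * x)‖
        ≤ ∑ x : ZMod p, ‖dd x * ψ ((h : ZMod p) * x)‖ := norm_sum_le _ _
      _ ≤ ∑ x : ZMod p, (if x ^ 2 - 4 = 0 then (2 : ℝ) else 0) := by
          refine Finset.sum_le_sum fun x _ => ?_
          rw [norm_mul, hpsi, mul_one]
          exact hdn x
      _ = (univ.filter (fun x : ZMod p => x ^ 2 - 4 = 0)).card * 2 := by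
          rw [← Finset.sum_filter, Finset.sum_const, nsmul_eq_mul]
      _ ≤ 2 * 2 := by
          have hsub : univ.filter (fun x : ZMod p => x ^ 2 - 4 = 0) ⊆ {2, -2} := by
            intro x hx
            rw [mem_filter] at hx
            have h1 : (x - 2) * (x + 2) = 0 := by
              rw [← hx.2]
              ring
            rw [mem_insert, mem_singleton]
            rcases mul_eq_zero.1 h1 with h3 | h3
            · exact Or.inl (sub_eq_zero.1 h3)
            · exact Or.inr (eq_neg_of_add_eq_zero_left h3)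
          have h1 := (Finset.card_le_card hsub).trans Finset.card_le_two
          have h2 : ((univ.filter (fun x : ZMod p => x ^ 2 - 4 = 0)).card : ℝ) ≤ 2 := by
            exact_mod_cast h1
          linarith
      _ = 4 := by norm_num
  have hsum : ∑ x : ZMod p, ψ ((h : ZMod p) * x) = if (h : ZMod p) = 0 then (p : ℂ) else 0 := by
    have h1 := AddChar.sum_mulShift (h : ZMod p) hprim
    rw [ZMod.card] at h1
    have h2 : ∑ x : ZMod p, ψ ((h : ZMod p) * x) = ∑ x : ZMod p, ψ (x * (h : ZMod p)) :=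
      Finset.sum_congr rfl fun x _ => by rw [mul_comm]
    rw [h2, h1]
    split_ifs <;> simp
  by_cases hh : (h : ZMod p) = 0
  · -- `p` divides `h`
    have hK : Kl p h h = (p : ℂ) - 1 := by
      rw [Kl_eq, hh]
      have e1 : ∀ k ∈ univ.filter (fun k : ZMod p => k ≠ 0),
          (ZMod.stdAddChar ((0 : ZMod p) * k + (0 : ZMod p) * k⁻¹) : ℂ) = 1 := by
        intro k _
        rw [zero_mul, zero_mul, add_zero, AddChar.map_zero_eq_one]
      rw [Finset.sum_congr rfl e1, Finset.sum_const, nsmul_eq_mul, mul_one]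
      have e2 : (univ.filter (fun k : ZMod p => k ≠ 0)).card = p - 1 := by
        rw [Finset.filter_ne', Finset.card_erase_of_mem (mem_univ _), Finset.card_univ, ZMod.card]
      rw [e2, Nat.cast_sub hp.one_lt.le, Nat.cast_one]
    rw [hK, hsum, if_pos hh]
    have e3 : ((p : ℂ) - 1 - (p : ℂ)) = -1 := by ring
    rw [e3]
    calc ‖(-1 : ℂ) + ∑ x : ZMod p, dd x * ψ ((h : ZMod p) * x)‖
        ≤ ‖(-1 : ℂ)‖ + ‖∑ x : ZMod p, dd x * ψ ((h : ZMod p) * x)‖ := norm_add_le _ _
      _ ≤ 1 + 4 := by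
          rw [norm_neg, norm_one]
          linarith
      _ ≤ 4 * √(p : ℝ) := by linarith
  · rw [hsum, if_neg hh, sub_zero]
    have hg : Int.gcd (Int.gcd h h) p = 1 := by
      have h1 : ¬ (p : ℤ) ∣ h := fun h0 => hh ((ZMod.intCast_zmod_eq_zero_iff_dvd h p).2 h0)
      have h2 : Int.gcd h h = h.natAbs := by rw [Int.gcd_self]
      rw [h2]
      have h3 : IsCoprime (p : ℤ) h := (Nat.prime_iff_prime_int.1 hp).coprime_iff_not_dvd.2 h1
      have h4 : Int.gcd h p = 1 := Int.isCoprime_iff_gcd_eq_one.1 h3.symm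
      change Nat.gcd (Int.natAbs (h.natAbs : ℤ)) (Int.natAbs (p : ℤ)) = 1
      rw [Int.natAbs_natCast]
      exact h4
    have h1 := hW p h h hp.squarefree
    rw [hg, hp.divisors, Finset.card_pair hp.one_lt.ne] at h1
    push_cast at h1
    rw [Real.sqrt_one, mul_one] at h1
    calc ‖Kl p h h + ∑ x : ZMod p, dd x * ψ ((h : ZMod p) * x)‖
        ≤ ‖Kl p h h‖ + ‖∑ x : ZMod p, dd x * ψ ((h : ZMod p) * x)‖ := norm_add_le _ _
      _ ≤ 2 * √(p : ℝ) + 4 := by linarith
      _ ≤ 4 * √(p : ℝ) := by linarith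

end Pool.Agent.Helper92.KS
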